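import Pool.Agent.Lib.MP_adb5ad_gt.W.All

open MeasureTheory Real
open Pool.Agent.Lib.MP_adb5ad_gt Pool.Agent.Lib.MP_adb5ad_gt.W

namespace Pool.Agent.Results.MP_adb5ad_gt.Attained

/-- Let `d ≥ 1` and `α > 0`. Among the functions of the class W (continuous, integrable, with
integrable nonnegative Fourier transform, below the potential off the origin) there is a radial one
whose value is the optimal linear programming bound `B_d(α)`, the supremum of the values of the
admissible functions. For `α = π` it can be chosen with `f + f^ = exp(-π|x|^2)`, so that its contact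
radii are exactly the zero radii of its Fourier transform. -/
theorem result (d : ℕ) (hd : 1 ≤ d) (α : ℝ) (hα : 0 < α) :
    ∃ f : E d → ℝ, Attains d α f ∧ (∀ x y : E d, ‖x‖ = ‖y‖ → f x = f y) ∧
      (α = π → ∀ x, f x + (ft f x).re = Real.exp (-π * ‖x‖ ^ 2)) :=
  attained aVal aRad aPiC d hd α hα

end Pool.Agent.Results.MP_adb5ad_gt.Attained
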