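import Pool.Agent.Lib.MP_adb5ad_gt.W.All

open MeasureTheory Real
open Pool.Agent.Lib.MP_adb5ad_gt Pool.Agent.Lib.MP_adb5ad_gt.W

namespace Pool.Agent.Results.MP_adb5ad_gt.CommonCount

/-- Let `d ≥ 3` and `α > 0`. There is `c > 0` such that for all large `X` at least `c X` of the
integers `j < X` are such that `j ≤ |x|^2 < j + 1` for a point `x ≠ 0` at which all functions of
the class W attaining `B_d(α)` touch the potential, and at least `c X` are such that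
`j ≤ |y|^2 < j + 1` for a common zero `y ≠ 0` of the Fourier transforms. -/
theorem result (d : ℕ) (hd : 3 ≤ d) (α : ℝ) (hα : 0 < α) :
    ∃ c X₀ : ℝ, 0 < c ∧ ∀ X : ℝ, X₀ ≤ X →
      c * X ≤ ({j : ℕ | (j : ℝ) < X ∧ ∃ x : E d, x ≠ 0 ∧ (j : ℝ) ≤ ‖x‖ ^ 2 ∧ ‖x‖ ^ 2 < j + 1 ∧
        ∀ f : E d → ℝ, Attains d α f → f x = Real.exp (-α * ‖x‖ ^ 2)}.ncard : ℝ) ∧
      c * X ≤ ({j : ℕ | (j : ℝ) < X ∧ ∃ y : E d, y ≠ 0 ∧ (j : ℝ) ≤ ‖y‖ ^ 2 ∧ ‖y‖ ^ 2 < j + 1 ∧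
        ∀ f : E d → ℝ, Attains d α f → ft f y = 0}.ncard : ℝ) :=
  common_count aVal aRad aGen aCC d hd α hα

end Pool.Agent.Results.MP_adb5ad_gt.CommonCount
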