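import Pool.Agent.Lib.MP_adb5ad_gt.W.All
import Pool.Agent.Lib.MP_adb5ad_gt.MeanSquare
import Pool.Agent.Lib.MP_adb5ad_gt.Inversion
import Pool.Agent.Lib.MP_adb5ad_gt.Piece
import Pool.Agent.Lib.MP_adb5ad_gt.Split
import Pool.Agent.Lib.MP_adb5ad_gt.Step
import Pool.Agent.Lib.MP_adb5ad_gt.Bound
import Pool.Agent.Lib.MP_adb5ad_gt.Hk.Fin

open MeasureTheory Real
open Pool.Agent.Lib.MP_adb5ad_gt Pool.Agent.Lib.MP_adb5ad_gt.W

namespace Pool.Agent.Results.MP_adb5ad_gt.Progressions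

theorem bound : BoundStmt :=
  boundStmt (stepStmt meanSquareStmt
    (splitStmt meanSquareStmt (pieceStmt meanSquareStmt inversionStmt)))

/-- Let `d ≥ 3` and `lam > 1`. There is `c > 0` such that for all `δ`, all `0 < ρ ≤ 1` and all
`α > 0` the following holds, provided that `δ` has distance at least `ρ` from all multiples of
`lam` in the case that `lam = 1 / cos(π/q)` for some `q ≥ 3` with `8 ∣ d (q - 2)`: a positive
proportion of the unit cells `[j, j+1)` contain the square `|x|^2` of the length of a point `x ≠ 0`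
which is a contact point of all functions of the class W attaining `B_d(α)`, or a zero of all their
Fourier transforms, and whose distance from the arithmetic progression `δ + lam ℤ` is more than
`c ρ`. -/
theorem result (d : ℕ) (hd : 3 ≤ d) (lam : ℝ) (hlam : 1 < lam) :
    ∃ c : ℝ, 0 < c ∧ ∀ δ ρ : ℝ, 0 < ρ → ρ ≤ 1 →
      ((∃ q : ℕ, 3 ≤ q ∧ lam * Real.cos (π / q) = 1 ∧ 8 ∣ d * (q - 2)) →
        ∀ i : ℤ, ρ ≤ |δ - lam * i|) →
      ∀ α : ℝ, 0 < α → ∃ κ X₀ : ℝ, 0 < κ ∧ ∀ X : ℝ, X₀ ≤ X →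
        κ * X ≤ ({j : ℕ | (j : ℝ) < X ∧ ∃ x : E d, x ≠ 0 ∧ (j : ℝ) ≤ ‖x‖ ^ 2 ∧
          ‖x‖ ^ 2 < j + 1 ∧
          ((∀ f : E d → ℝ, Attains d α f → f x = Real.exp (-α * ‖x‖ ^ 2)) ∨
            (∀ f : E d → ℝ, Attains d α f → ft f x = 0)) ∧
          ∀ i : ℤ, c * ρ < |‖x‖ ^ 2 - δ - lam * i|}.ncard : ℝ) :=
  Hk.deviate aVal aRad aGen aDM meanSquareStmt bound d hd lam hlam

end Pool.Agent.Results.MP_adb5ad_gt.Progressions
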