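import Pool.Agent.Lib.MP_adb5ad_gt.W.All

open MeasureTheory Real Set
open Pool.Agent.Lib.MP_adb5ad_gt Pool.Agent.Lib.MP_adb5ad_gt.W

namespace Pool.Agent.Results.MP_adb5ad_gt.StrongDuality

/-- Strong duality with attainment for the optimal linear programming bound `B_d(α)`, `d ≥ 1`,
`α > 0`: there are positive measures `m`, `n` on a half line `[a,∞)`, `a > 0` (measures of squared
radii), with `1 + ∫ exp(-πzs) dm(s) = z^(-d/2) (1 + ∫ exp(-πs/z) dn(s))` for `Re z > 0`, such that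
`B_d(α) = ∫ exp(-αs) dm(s)`, and for every function of the class W attaining `B_d(α)` the measure
`m` is carried by the squares of its contact radii and `n` by the squares of its zero radii. -/
theorem result (d : ℕ) (hd : 1 ≤ d) (α : ℝ) (hα : 0 < α) :
    ∃ m n : Measure ℝ, ∃ a : ℝ, 0 < a ∧ m (Iio a) = 0 ∧ n (Iio a) = 0 ∧
      (∀ t : ℝ, 0 < t → Integrable (fun s => Real.exp (-t * s)) m) ∧
      (∀ t : ℝ, 0 < t → Integrable (fun s => Real.exp (-t * s)) n) ∧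
      (∀ z : ℂ, 0 < z.re → 1 + ∫ s : ℝ, Complex.exp (-(π : ℂ) * z * s) ∂m =
        z ^ (-((d : ℂ) / 2)) * (1 + ∫ s : ℝ, Complex.exp (-(π : ℂ) * (1 / z) * s) ∂n)) ∧
      IsLUB {v : ℝ | ∃ g : E d → ℝ, Admissible d α g ∧ value g = v}
        (∫ s, Real.exp (-α * s) ∂m) ∧
      ∀ f : E d → ℝ, Attains d α f →
        m {s : ℝ | ∀ x : E d, ‖x‖ ^ 2 = s → f x ≠ Real.exp (-α * ‖x‖ ^ 2)} = 0 ∧
        n {s : ℝ | ∀ y : E d, ‖y‖ ^ 2 = s → ft f y ≠ 0} = 0 :=
  strong_duality aVal aRad aGen aDM d hd α hα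

end Pool.Agent.Results.MP_adb5ad_gt.StrongDuality
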